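import Pool.Agent.WAP.StmtsL
import Pool.Agent.WAP.Alg

/-!
Row RAM of table wap.
-/

namespace Pool.Agent.WAP.H54

open Pool.Agent.WAP Pool.Agent.WAP.G
open Classical

section
variable {F : Type} [NormedField F] [Algebra GaussianInt F] {ϖ : GaussianInt}

theorem norm_two (hL : IsLoc F ϖ) (h2 : ¬ ϖ ∣ 2) : ‖(2 : F)‖ = 1 := by
  have h1 : (algebraMap GaussianInt F 2) = 2 := map_ofNat _ 2
  have h3 := hL.int 2
  rw [h1] at h3
  have h4 := (hL.lt_one 2).not.2 h2
  rw [h1] at h4
  exact le_antisymm h3 (not_lt.1 h4)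

theorem norm_add_one (hL : IsLoc F ϖ) {x y : F} (hx : ‖x‖ < 1) (hy : ‖y‖ = 1) :
    ‖x + y‖ = 1 := by
  apply le_antisymm
  · exact (hL.ultra x y).trans (max_le hx.le hy.le)
  · have h1 := hL.ultra (x + y) (-x)
    rw [norm_neg] at h1
    have h2 : x + y + -x = y := by ring
    rw [h2, hy] at h1
    rcases le_max_iff.1 h1 with h3 | h3
    · exact h3
    · exact absurd h3 (not_le.2 hx)

theorem big_of_xn {d : F} {P : Pt d} (h : 1 < ‖xn P‖) : Big 1 P := Or.inr h

theorem norm_div_gt {a b : F} (ha : ‖a‖ = 1) (hb : ‖b‖ < 1) (hb0 : b ≠ 0) : 1 < ‖a / b‖ := by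
  rw [norm_div, ha]
  exact (one_lt_div (norm_pos_iff.2 hb0)).2 hb

end

theorem ram : RamStmt := by
  intro F _ _ ϖ hL hodd d hd P
  have hq1 : qn F ϖ < 1 := (hL.lt_one ϖ).2 (dvd_refl ϖ)
  have hq0 : 0 < qn F ϖ := hL.uni
  have hd0 : d ≠ 0 := by
    rw [← norm_pos_iff, hd]; exact hq0
  have n2 := norm_two hL hodd
  have h2 : (2 : F) ≠ 0 := by
    rw [← norm_pos_iff, n2]; exact one_pos
  have hneg : ∀ e : F, e ^ 3 = e → P - tor d e = P + tor d e := by
    intro e he
    rw [sub_eq_add_neg, (isP_tor h2 hd0 he).neg_self]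
  rw [hneg 0 (by ring), hneg 1 (by ring), hneg (-1) (by ring)]
  by_cases hP0 : P = 0
  · exact Or.inl (Or.inl hP0)
  have hP := isP_self hd0 hP0
  set x := xn P with hx
  set y := yn P with hy
  have heq := hP.eqn hd0
  have y_zero : cub x = 0 → y = 0 := by
    intro h
    rw [h] at heq
    rcases mul_eq_zero.1 heq with h3 | h3
    · exact absurd h3 hd0
    · exact pow_eq_zero_iff (two_ne_zero)|>.1 h3
  have tor_case : ∀ e : F, e ^ 3 = e → x = e → Big 1 (P + tor d e) := by
    intro e he hxe
    left
    have hc : cub x = 0 := by rw [hxe]; unfold cub; rw [he]; ring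
    have hy0 := y_zero hc
    have h3 : IsP P e 0 := hP.congr hxe hy0
    have h4 : P = tor d e := h3.ext (isP_tor h2 hd0 he)
    rw [h4]
    exact tor_add_self h2 hd0 he
  by_cases hbig : 1 < ‖x‖
  · exact Or.inl (big_of_xn hbig)
  push Not at hbig
  rcases lt_or_eq_of_le hbig with hx1 | hx1
  · right; left
    by_cases h0 : x = 0
    · exact tor_case 0 (by ring) h0
    · apply big_of_xn
      rw [(hP.add_tor0 h2 hd0 h0).xn_eq hd0]
      exact norm_div_gt (by rw [norm_neg, norm_one]) hx1 h0
  · by_cases ha : ‖x - 1‖ < 1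
    · right; right; left
      by_cases h0 : x = 1
      · exact tor_case 1 (by ring) h0
      · apply big_of_xn
        rw [(hP.add_tor1 h2 hd0 h0).xn_eq hd0]
        refine norm_div_gt ?_ ha (sub_ne_zero.2 h0)
        have : x + 1 = (x - 1) + 2 := by ring
        rw [this]
        exact norm_add_one hL ha n2
    · by_cases hb : ‖x + 1‖ < 1
      · right; right; right
        by_cases h0 : x = -1
        · exact tor_case (-1) (by ring) h0
        · apply big_of_xn
          rw [(hP.add_torm h2 hd0 h0).xn_eq hd0]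
          have hb' : ‖1 + x‖ < 1 := by rw [add_comm]; exact hb
          refine norm_div_gt ?_ hb' ?_
          · have : 1 - x = -(x + 1) + 2 := by ring
            rw [this]
            exact norm_add_one hL (by rw [norm_neg]; exact hb) n2
          · intro h
            exact h0 (by linear_combination h)
      · exfalso
        have ha' : ‖x - 1‖ = 1 := by
          apply le_antisymm _ (not_lt.1 ha)
          have := hL.ultra x (-1)
          rw [norm_neg, norm_one, hx1, max_self, ← sub_eq_add_neg] at this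
          exact this
        have hb' : ‖x + 1‖ = 1 := by
          apply le_antisymm _ (not_lt.1 hb)
          have := hL.ultra x 1
          rw [norm_one, hx1, max_self] at this
          exact this
        have hc : cub x = x * (x - 1) * (x + 1) := by unfold cub; ring
        have hn : ‖d‖ * ‖y‖ ^ 2 = 1 := by
          rw [← norm_pow, ← norm_mul, heq, hc, norm_mul, norm_mul, hx1, ha', hb']
          norm_num
        have hy0 : y ≠ 0 := by
          intro h
          rw [h, norm_zero] at hn
          norm_num at hn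
        obtain ⟨n, hn'⟩ := hL.val y hy0
        rw [hd, hn'] at hn
        have hq0' : (0 : ℝ) < ‖algebraMap GaussianInt F ϖ‖ := hq0
        have h5 : ‖algebraMap GaussianInt F ϖ‖ ^ (1 + 2 * n) =
            ‖algebraMap GaussianInt F ϖ‖ ^ (0 : ℤ) := by
          rw [zpow_add₀ hq0'.ne', zpow_one, zpow_zero, mul_comm 2 n, zpow_mul]
          exact hn
        have h6 := zpow_right_injective₀ hq0' hq1.ne h5
        omega

end Pool.Agent.WAP.H54
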