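import Pool.Agent.WAP.StmtsL

/-!
Row ZEQ of table wap.
-/

namespace Pool.Agent.WAP.H54

open Pool.Agent.WAP
open Classical WeierstrassCurve.Affine

theorem zeq : ZeqStmt := by
  intro F _ _ ϖ hL d X Y hd hns hdX
  have hE : Y ^ 2 = X ^ 3 - d ^ 2 * X := (W_equation d X Y).1 hns.1
  have hd0 : 0 < ‖d‖ := norm_pos_iff.2 hd
  have hX0 : 0 < ‖X‖ := lt_trans hd0 hdX
  have hX : X ≠ 0 := norm_pos_iff.1 hX0
  have hsq : ‖d ^ 2‖ < ‖X ^ 2‖ := by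
    rw [norm_pow, norm_pow]
    exact pow_lt_pow_left₀ hdX hd0.le two_ne_zero
  have h1 : ‖X ^ 2 - d ^ 2‖ = ‖X ^ 2‖ := by
    apply le_antisymm
    · have := hL.ultra (X ^ 2) (-d ^ 2)
      rw [norm_neg] at this
      have h2 : X ^ 2 + -d ^ 2 = X ^ 2 - d ^ 2 := by ring
      rw [h2, max_eq_left hsq.le] at this
      exact this
    · have := hL.ultra (X ^ 2 - d ^ 2) (d ^ 2)
      rw [sub_add_cancel] at this
      rcases le_max_iff.1 this with h3 | h3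
      · exact h3
      · exact absurd h3 (not_le.2 hsq)
  have h2 : ‖Y‖ ^ 2 = ‖X‖ ^ 3 := by
    have h3 : Y ^ 2 = X * (X ^ 2 - d ^ 2) := by rw [hE]; ring
    have h4 : ‖Y ^ 2‖ = ‖X‖ * ‖X ^ 2‖ := by rw [h3, norm_mul, h1]
    rw [norm_pow, norm_pow] at h4
    rw [h4]; ring
  have hY : Y ≠ 0 := by
    rintro rfl
    rw [norm_zero] at h2
    have : 0 < ‖X‖ ^ 3 := pow_pos hX0 3
    rw [← h2] at this
    norm_num at this
  have hY0 : 0 < ‖Y‖ := norm_pos_iff.2 hY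
  have h3 : ‖X / Y‖ ^ 2 = 1 / ‖X‖ := by
    rw [norm_div, div_pow, h2]
    field_simp
  have hq1 : qn F ϖ < 1 := (hL.lt_one ϖ).2 (dvd_refl ϖ)
  have hq0 : 0 < qn F ϖ := hL.uni
  refine ⟨hY, ?_, ?_, ?_, hq1, ?_⟩
  · rw [h3]
    field_simp
  · rw [norm_div, div_pow]
    have h4 : ‖Y‖ ^ 3 = ‖Y‖ * ‖X‖ ^ 3 := by
      calc ‖Y‖ ^ 3 = ‖Y‖ * ‖Y‖ ^ 2 := by ring
        _ = ‖Y‖ * ‖X‖ ^ 3 := by rw [h2]
    rw [h4]
    field_simp
  · have h4 : ‖d‖ * ‖X / Y‖ ^ 2 = ‖d / X‖ := by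
      rw [h3, norm_div]; ring
    rw [h4]
    obtain ⟨n, hn⟩ := hL.val (d / X) (div_ne_zero hd hX)
    have h5 : ‖d / X‖ < 1 := by
      rw [norm_div]
      exact (div_lt_one hX0).2 hdX
    rw [hn] at h5 ⊢
    have hn1 : 1 ≤ n := by
      by_contra hc
      push Not at hc
      have h6 : n ≤ 0 := by omega
      have h7 : (1 : ℝ) ≤ ‖algebraMap GaussianInt F ϖ‖ ^ n :=
        one_le_zpow_of_nonpos₀ hq0 hq1.le h6
      exact absurd h5 (not_lt.2 h7)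
    calc ‖algebraMap GaussianInt F ϖ‖ ^ n ≤ ‖algebraMap GaussianInt F ϖ‖ ^ (1 : ℤ) :=
          zpow_le_zpow_right_of_le_one₀ hq0 hq1.le hn1
      _ = qn F ϖ := by rw [zpow_one]; rfl
  · field_simp
    linear_combination hE

end Pool.Agent.WAP.H54
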