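import Pool.Agent.WAP.StmtsI

/-!
Row CRT of table wap.
-/

namespace Pool.Agent.WAP.H54

open Pool.Agent.WAP

theorem crt : CrtStmt := by
  classical
  intro ι ϖ S N k hp hna
  have hco : ∀ v ∈ S, ∀ w ∈ S, v ≠ w → IsCoprime (ϖ v ^ N v) (ϖ w ^ N w) := by
    intro v hv w hw hvw
    apply IsCoprime.pow
    rw [(hp v hv).irreducible.coprime_iff_not_dvd]
    intro hd
    exact hna v hv w hw hvw (((hp v hv).dvd_prime_iff_associated (hp w hw)).1 hd)
  clear hp hna
  induction S using Finset.induction_on with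
  | empty => exact ⟨0, fun v hv => absurd hv (Finset.notMem_empty v)⟩
  | insert a T ha ih =>
    obtain ⟨k1, hk1⟩ := ih (fun v hv w hw hvw =>
      hco v (Finset.mem_insert_of_mem hv) w (Finset.mem_insert_of_mem hw) hvw)
    have hcop : IsCoprime (ϖ a ^ N a) (∏ v ∈ T, ϖ v ^ N v) := by
      apply IsCoprime.prod_right
      intro v hv
      refine hco a (Finset.mem_insert_self a T) v (Finset.mem_insert_of_mem hv) ?_
      rintro rfl
      exact ha hv
    obtain ⟨x, y, hxy⟩ := hcop
    set M := ∏ v ∈ T, ϖ v ^ N v with hM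
    refine ⟨k1 * (x * ϖ a ^ N a) + k a * (y * M), ?_⟩
    intro v hv
    rcases Finset.mem_insert.1 hv with rfl | hv
    · refine ⟨(k1 - k v) * x, ?_⟩
      have h1 : y * M = 1 - x * ϖ v ^ N v := by rw [← hxy]; ring
      rw [h1]; ring
    · have h1 : x * ϖ a ^ N a = 1 - y * M := by rw [← hxy]; ring
      have h2 : k1 * (x * ϖ a ^ N a) + k a * (y * M) - k v =
          (k1 - k v) + (k a - k1) * y * M := by
        rw [h1]; ring
      rw [h2]
      refine dvd_add (hk1 v hv) (Dvd.dvd.mul_left ?_ _)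
      exact Finset.dvd_prod_of_mem (fun v => ϖ v ^ N v) hv

end Pool.Agent.WAP.H54
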