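import Pool.Agent.WAP.StmtsT

/-!
Row DNS of table wap.
-/

namespace Pool.Agent.WAP.H54

open Pool.Agent.WAP
open Classical

theorem onU_ne {F : Type} [Field F] {x t y : F} (h : OnU (x, t, y)) :
    y ^ 2 = cub x * cub t ∧ y ≠ 0 ∧ t ≠ 0 ∧ t - 1 ≠ 0 ∧ t + 1 ≠ 0 := by
  obtain ⟨h1, h2⟩ := h
  simp only at h1 h2
  have h3 : cub x * cub t ≠ 0 := by
    rw [← h1]; exact pow_ne_zero 2 h2
  have h4 : t ^ 3 - t ≠ 0 := (mul_ne_zero_iff.1 h3).2
  refine ⟨h1, h2, ?_, ?_, ?_⟩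
  · rintro rfl
    apply h4; ring
  · intro h
    apply h4
    have : t = 1 := sub_eq_zero.1 h
    rw [this]; ring
  · intro h
    apply h4
    have : t = -1 := eq_neg_of_add_eq_zero_left h
    rw [this]; ring

theorem dns : DnsStmt := by
  intro F _ _ h2 l hl z hz
  obtain ⟨x, t, y⟩ := z
  obtain ⟨h1, hy, ht, ht1, ht2⟩ := onU_ne hz
  rcases hl with rfl | rfl | rfl | rfl
  · refine ⟨swf (x, t, y), hz, ⟨?_, hy⟩, rfl⟩
    show y ^ 2 = cub t * cub x
    rw [h1]; ring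
  · refine ⟨t0f (x, t, y), hz, ⟨?_, ?_⟩, rfl⟩
    · show (y / t ^ 2) ^ 2 = cub x * cub (-1 / t)
      have e1 : cub (-1 / t) = cub t / t ^ 4 := by
        unfold cub
        field_simp
        ring
      rw [e1, div_pow, h1]
      field_simp
    · show y / t ^ 2 ≠ 0
      exact div_ne_zero hy (pow_ne_zero 2 ht)
  · refine ⟨tpf (x, t, y), hz, ⟨?_, ?_⟩, rfl⟩
    · show (-2 * y / (t - 1) ^ 2) ^ 2 = cub x * cub ((t + 1) / (t - 1))
      have e1 : cub ((t + 1) / (t - 1)) = 4 * cub t / (t - 1) ^ 4 := by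
        unfold cub
        field_simp
        ring
      rw [e1, div_pow, mul_pow, h1]
      field_simp
      ring
    · show -2 * y / (t - 1) ^ 2 ≠ 0
      exact div_ne_zero (mul_ne_zero (neg_ne_zero.2 h2) hy) (pow_ne_zero 2 ht1)
  · have ht2' : (1 : F) + t ≠ 0 := by rw [add_comm]; exact ht2
    refine ⟨tmf (x, t, y), hz, ⟨?_, ?_⟩, rfl⟩
    · show (-2 * y / (t + 1) ^ 2) ^ 2 = cub x * cub ((1 - t) / (1 + t))
      have e1 : cub ((1 - t) / (1 + t)) = 4 * cub t / (t + 1) ^ 4 := by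
        unfold cub
        rw [add_comm 1 t]
        field_simp
        ring
      rw [e1, div_pow, mul_pow, h1]
      field_simp
      ring
    · show -2 * y / (t + 1) ^ 2 ≠ 0
      exact div_ne_zero (mul_ne_zero (neg_ne_zero.2 h2) hy) (pow_ne_zero 2 ht2)

end Pool.Agent.WAP.H54
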