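import Pool.Agent.WAP.StmtsP2

/-!
Row RHO of table wap.
-/

set_option autoImplicit false

namespace Pool.Agent.WAP.H54

open Pool.Agent.WAP Pool.Agent.WAP.P2 Classical

section vals

variable {F : Type} [NormedField F] [Algebra GaussianInt F] {v : F → ℤ}

/-- `x` has the valuation `n` -/
def EV (v : F → ℤ) (x : F) (n : ℤ) : Prop := x ≠ 0 ∧ v x = n

/-- `x` has a valuation at least `n` -/
def GV (v : F → ℤ) (x : F) (n : ℤ) : Prop := x = 0 ∨ n ≤ v x

theorem EV.gv {x : F} {n m : ℤ} (h : EV v x n) (hm : m ≤ n) : GV v x m := by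
  right; rw [h.2]; exact hm

theorem EV.add (hv : IsV F v) {x y : F} {n m : ℤ} (hx : EV v x n) (hy : GV v y m) (hm : n < m) :
    EV v (x + y) n := by
  have h := hv.add_lt x y hx.1 (by
    rcases hy with h | h
    · exact Or.inl h
    · right; rw [hx.2]; omega)
  exact ⟨h.1, h.2.trans hx.2⟩

theorem EV.mul (hv : IsV F v) {x y : F} {n m : ℤ} (hx : EV v x n) (hy : EV v y m) :
    EV v (x * y) (n + m) :=
  ⟨mul_ne_zero hx.1 hy.1, by rw [hv.mul x y hx.1 hy.1, hx.2, hy.2]⟩

theorem EV.neg (hv : IsV F v) {x : F} {n : ℤ} (hx : EV v x n) : EV v (-x) n :=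
  ⟨neg_ne_zero.2 hx.1, by rw [hv.neg x hx.1, hx.2]⟩

theorem EV.eq {x y : F} {n m : ℤ} (hx : EV v x n) (h : x = y) (h' : n = m) : EV v y m := by
  subst h h'; exact hx

theorem GV.eq {x y : F} {n m : ℤ} (hx : GV v x n) (h : x = y) (h' : m ≤ n) : GV v y m := by
  subst h
  rcases hx with h | h
  · exact Or.inl h
  · right; omega

theorem GV.add (hv : IsV F v) {x y : F} {n : ℤ} (hx : GV v x n) (hy : GV v y n) :
    GV v (x + y) n := by
  by_cases hx0 : x = 0
  · rw [hx0, zero_add]; exact hy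
  by_cases hy0 : y = 0
  · rw [hy0, add_zero]; exact hx
  by_cases h0 : x + y = 0
  · exact Or.inl h0
  right
  have h := hv.add x y hx0 hy0 h0
  have h1 : n ≤ v x := hx.resolve_left hx0
  have h2 : n ≤ v y := hy.resolve_left hy0
  exact (le_min h1 h2).trans h

theorem GV.neg (hv : IsV F v) {x : F} {n : ℤ} (hx : GV v x n) : GV v (-x) n := by
  by_cases hx0 : x = 0
  · left; rw [hx0, neg_zero]
  · right; rw [hv.neg x hx0]; exact hx.resolve_left hx0

theorem GV.mul (hv : IsV F v) {x y : F} {n m : ℤ} (hx : GV v x n) (hy : GV v y m) :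
    GV v (x * y) (n + m) := by
  by_cases hx0 : x = 0
  · left; rw [hx0, zero_mul]
  by_cases hy0 : y = 0
  · left; rw [hy0, mul_zero]
  right
  rw [hv.mul x y hx0 hy0]
  have h1 : n ≤ v x := hx.resolve_left hx0
  have h2 : m ≤ v y := hy.resolve_left hy0
  omega

theorem ev_one (hv : IsV F v) : EV v (1 : F) 0 := ⟨one_ne_zero, hv.one⟩
theorem ev_two (hv : IsV F v) : EV v (2 : F) 2 := ⟨hv.two_ne, hv.two⟩
theorem ev_four (hv : IsV F v) : EV v (4 : F) 4 :=
  ((ev_two hv).mul hv (ev_two hv)).eq (by norm_num) (by norm_num)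
theorem ev_three (hv : IsV F v) : EV v (3 : F) 0 :=
  ((ev_one hv).add hv ((ev_two hv).gv le_rfl) (by norm_num)).eq (by norm_num) rfl

/-- the final computation -/
theorem final_val (hv : IsV F v) {p q r D : F} {a b c d : ℤ} (hp : EV v p a) (hq : EV v q b)
    (hr : EV v r c) (hD : EV v D d) (hodd : Odd (4 + a + b + c - 3 * d)) :
    D ≠ 0 ∧ Odd (v (-4 * p * q * r / D ^ 3)) ∧ -4 * p * q * r / D ^ 3 ≠ 0 := by
  have h1 : EV v (-4 * p * q * r) (4 + a + b + c) :=
    ((((ev_four hv).neg hv).mul hv hp).mul hv hq).mul hv hr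
  have h3 : D ^ 3 ≠ 0 := pow_ne_zero 3 hD.1
  refine ⟨hD.1, ?_, div_ne_zero h1.1 h3⟩
  rw [hv.div _ _ h1.1 h3, h1.2, hv.pow D hD.1 3, hD.2]
  exact hodd

end vals

theorem rho : RhoStmt := by
  intro F _ _ v hv x t hx0 hx1 hxm hxA htA hev
  obtain ⟨ht0, ht1, htv, htb⟩ := htA
  have eb : EV v (t - 1) 1 := ⟨sub_ne_zero.2 ht1, htb⟩
  have g2 : GV v (2 : F) 2 := (ev_two hv).gv le_rfl
  have et1 : EV v (t + 1) 1 := (eb.add hv g2 (by norm_num)).eq (by ring) rfl
  have e3t : EV v (3 * t - 1) 1 :=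
    ((((ev_three hv).mul hv eb).eq rfl (by norm_num : (0 : ℤ) + 1 = 1)).add hv g2
      (by norm_num)).eq (by ring) rfl
  have gt0 : GV v t 0 := Or.inr htv.ge
  have hcub : cub x = x * (x - 1) * (x + 1) := by unfold cub; ring
  have hxa : x - 1 ≠ 0 := sub_ne_zero.2 hx1
  have hxp : x + 1 ≠ 0 := fun h => hxm (eq_neg_of_add_eq_zero_left h)
  have hvc : v (cub x) = v x + v (x - 1) + v (x + 1) := by
    rw [hcub, hv.mul _ _ (mul_ne_zero hx0 hxa) hxp, hv.mul _ _ hx0 hxa]
  rw [hvc] at hev
  have ex : EV v x (v x) := ⟨hx0, rfl⟩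
  rcases lt_trichotomy (v x) 0 with hn | hn | hn
  · -- negative valuation
    have ea : EV v (x - 1) (v x) :=
      (ex.add hv (((ev_one hv).neg hv).gv le_rfl) hn).eq (by ring) rfl
    have ep : EV v (x + 1) (v x) := ex.add hv ((ev_one hv).gv le_rfl) hn
    rw [ea.2, ep.2] at hev
    have hn2 : v x ≤ -2 := by
      obtain ⟨k, hk⟩ := hev
      omega
    refine final_val hv (a := v x) (b := v x + 2) (c := v x) (d := v x + 1) ?_ ?_ ?_ ?_ ?_
    · exact (ex.add hv (et1.gv le_rfl) (by omega)).eq (by ring) rfl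
    · have e1 : EV v (-(2 * x)) (v x + 2) :=
        (((ev_two hv).mul hv ex).neg hv).eq rfl (by ring)
      exact (e1.add hv (et1.gv le_rfl) (by omega)).eq (by ring) rfl
    · have e1 : GV v (2 * t + -1) 0 :=
        (((g2.mul hv gt0).eq rfl (by norm_num)).add hv (((ev_one hv).neg hv).gv le_rfl))
      exact ((ex.neg hv).add hv e1 (by omega)).eq (by ring) rfl
    · exact ((ex.mul hv e3t).add hv ((et1.neg hv).gv le_rfl) (by omega)).eq (by ring) rfl
    · exact ⟨1, by ring⟩
  · -- valuation zero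
    have h1 : 1 ≤ v (x - 1) := hv.res x hx0 hn hx1
    have h2 : 2 ≤ v (x - 1) := by
      rcases eq_or_lt_of_le h1 with h | h
      · exact absurd ⟨hx0, hx1, hn, h.symm⟩ hxA
      · omega
    have ea : EV v (x - 1) (v (x - 1)) := ⟨hxa, rfl⟩
    rcases eq_or_lt_of_le h2 with h3 | h3
    · -- `v (x - 1) = 2`
      rw [← h3] at ea
      -- `v (x + 1) ≥ 4`
      have h4 : 4 ≤ v (x + 1) := by
        set e := (x - 1) / 2 with he
        have he1 : x - 1 = 2 * e := by
          rw [he]; field_simp [hv.two_ne]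
        have he0 : e ≠ 0 := by
          intro h; apply hxa; rw [he1, h, mul_zero]
        have hve : v e = 0 := by
          rw [he, hv.div _ _ hxa hv.two_ne, ← h3, hv.two]; norm_num
        have hem : -e ≠ 1 := by
          intro h
          apply hxp
          have : e = -1 := by rw [← h]; ring
          linear_combination he1 + 2 * this
        have h5 := hv.res (-e) (neg_ne_zero.2 he0) (by rw [hv.neg e he0, hve]) hem
        have h6 : e + 1 ≠ 0 := by
          intro h; apply hem; linear_combination -h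
        have h7 : v (-e - 1) = v (e + 1) := by
          have : -e - 1 = -(e + 1) := by ring
          rw [this, hv.neg _ h6]
        have h8 : x + 1 = 2 * (e + 1) := by linear_combination he1
        have h9 : v (x + 1) = 2 + v (e + 1) := by
          rw [h8, hv.mul _ _ hv.two_ne h6, hv.two]
        rw [hn, ← h3] at hev
        obtain ⟨k, hk⟩ := hev
        omega
      have gp : GV v (x + 1) 4 := Or.inr h4
      refine final_val hv (a := 0) (b := 1) (c := 2) (d := 4) ?_ ?_ ?_ ?_ ?_
      · exact ((ev_three hv).add hv ((ea.gv (by norm_num)).add hv (eb.gv le_rfl) : GV v _ 1)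
          (by norm_num)).eq (by ring) rfl
      · have e1 : GV v (-(2 * (x - 1))) 4 :=
          (((g2.mul hv (ea.gv le_rfl)).neg hv).eq rfl (by norm_num))
        exact (eb.add hv e1 (by norm_num)).eq (by ring) rfl
      · have e1 : GV v (2 * (t - 1)) 3 := (g2.mul hv (eb.gv le_rfl)).eq rfl (by norm_num)
        exact ((ea.neg hv).add hv e1 (by norm_num)).eq (by ring) rfl
      · have e1 : EV v (2 * (x - 1)) 4 := ((ev_two hv).mul hv ea).eq rfl (by norm_num)
        have e2 : GV v ((x + 1) + 2 * (x - 1)) 4 := gp.add hv (e1.gv le_rfl)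
        have e3 : GV v ((t - 1) * ((x + 1) + 2 * (x - 1))) 5 :=
          ((eb.gv le_rfl).mul hv e2).eq rfl (by norm_num)
        exact (e1.add hv e3 (by norm_num)).eq (by ring) rfl
      · exact ⟨-3, by norm_num⟩
    · -- `v (x - 1) ≥ 3`
      have ep : EV v (x + 1) 2 :=
        ((ev_two hv).add hv (ea.gv (show (3 : ℤ) ≤ v (x - 1) by omega)) (by norm_num)).eq
          (by ring) rfl
      have h4 : 4 ≤ v (x - 1) := by
        rw [hn, ep.2] at hev
        obtain ⟨k, hk⟩ := hev
        omega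
      have ga : GV v (x - 1) 4 := ea.gv h4
      refine final_val hv (a := 0) (b := 1) (c := 3) (d := 3) ?_ ?_ ?_ ?_ ?_
      · exact ((ev_three hv).add hv ((ga.eq rfl (by norm_num)).add hv (eb.gv le_rfl) : GV v _ 1)
          (by norm_num)).eq (by ring) rfl
      · have e1 : GV v (-(2 * (x - 1))) 6 :=
          (((g2.mul hv ga).neg hv).eq rfl (by norm_num))
        exact (eb.add hv e1 (by norm_num)).eq (by ring) rfl
      · have e1 : EV v (2 * (t - 1)) 3 := ((ev_two hv).mul hv eb).eq rfl (by norm_num)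
        exact (e1.add hv (ga.neg hv) (by norm_num)).eq (by ring) rfl
      · have e1 : EV v (2 * (t - 1)) 3 := ((ev_two hv).mul hv eb).eq rfl (by norm_num)
        have e2 : GV v (2 * (x - 1)) 4 := (g2.mul hv ga).eq rfl (by norm_num)
        have e3 : GV v (3 * (x - 1) * (t - 1)) 4 :=
          ((((ev_three hv).gv le_rfl).mul hv ga).mul hv (eb.gv le_rfl)).eq rfl (by norm_num)
        exact (e1.add hv (e2.add hv e3) (by norm_num)).eq (by ring) rfl
      · exact ⟨-1, by norm_num⟩
  · -- positive valuation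
    have ea : EV v (x - 1) 0 :=
      (((ev_one hv).neg hv).add hv (ex.gv le_rfl) hn).eq (by ring) rfl
    have ep : EV v (x + 1) 0 := ((ev_one hv).add hv (ex.gv le_rfl) hn).eq (by ring) rfl
    rw [ea.2, ep.2] at hev
    have hn2 : 2 ≤ v x := by
      obtain ⟨k, hk⟩ := hev
      omega
    have gx : GV v x 2 := ex.gv hn2
    refine final_val hv (a := 1) (b := 1) (c := 0) (d := 1) ?_ ?_ ?_ ?_ ?_
    · exact (et1.add hv gx (by norm_num)).eq (by ring) rfl
    · have e1 : GV v (-(2 * x)) 4 := ((g2.mul hv gx).neg hv).eq rfl (by norm_num)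
      exact (et1.add hv e1 (by norm_num)).eq (by ring) rfl
    · have e1 : GV v (2 * t + -x) 1 :=
        ((g2.mul hv gt0).eq rfl (by norm_num)).add hv ((gx.neg hv).eq rfl (by norm_num))
      exact (((ev_one hv).neg hv).add hv e1 (by norm_num)).eq (by ring) rfl
    · have e1 : GV v (x * (3 * t - 1)) 3 := (gx.mul hv (e3t.gv le_rfl)).eq rfl (by norm_num)
      exact ((et1.neg hv).add hv e1 (by norm_num)).eq (by ring) rfl
    · exact ⟨1, by norm_num⟩

end Pool.Agent.WAP.H54
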